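import Pool.Agent.L5helper58.GPRoots

/-!
# D2: the exact probability that no prime in a range divides `q_p`
-/

set_option autoImplicit false

open Finset MeasureTheory ProbabilityTheory Filter Topology

namespace Pool.Agent.L5helper32.GP

open Pool.Agent.L5helper32.GR (Root w pr sg Dep lev q)

/-! ### The number of roots of `q_p` modulo a prime -/

theorem d2_q_mul (p t : ℕ) : (t + 1) ^ p = 1 + t * q p t := by
  unfold q
  rw [add_pow, Finset.mul_sum, Finset.range_eq_Ico, Finset.sum_eq_sum_Ico_succ_bot (by omega)]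
  have h1 : Finset.Ico (0 + 1) (p + 1) = Finset.Icc 1 p := by
    ext k; simp only [Finset.mem_Ico, Finset.mem_Icc]; omega
  rw [h1]
  congr 1
  · simp
  · refine Finset.sum_congr rfl fun k hk => ?_
    have hk1 : 1 ≤ k := (Finset.mem_Icc.1 hk).1
    obtain ⟨m, rfl⟩ : ∃ m, k = m + 1 := ⟨k - 1, by omega⟩
    simp only [one_pow, mul_one, Nat.add_sub_cancel, Nat.cast_id]
    ring

theorem d2_q_zero {p : ℕ} (hp : 1 ≤ p) : q p 0 = p := by
  unfold q
  rw [Finset.sum_eq_single 1]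
  · simp
  · intro k hk hk1
    have h1 := (Finset.mem_Icc.1 hk).1
    rw [zero_pow (by omega), mul_zero]
  · intro h
    exact absurd (Finset.mem_Icc.2 ⟨le_rfl, hp⟩) h

theorem d2_dvd_iff {p r : ℕ} (hp : p.Prime) (hr : r.Prime) (hpr : p < r) {t : ℕ} (ht : t < r) :
    r ∣ q p t ↔ ((t : ZMod r) + 1 ≠ 1 ∧ ((t : ZMod r) + 1) ^ p = 1) := by
  have : Fact r.Prime := ⟨hr⟩
  rcases Nat.eq_zero_or_pos t with h0 | h0
  · subst h0
    rw [d2_q_zero hp.one_lt.le]
    constructor
    · intro h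
      exact absurd (Nat.le_of_dvd hp.pos h) (by omega)
    · rintro ⟨h, -⟩
      simp at h
  · have ht0 : (t : ZMod r) ≠ 0 := by
      rw [Ne, ZMod.natCast_eq_zero_iff]
      exact Nat.not_dvd_of_pos_of_lt h0 ht
    have hq : (((t + 1) ^ p : ℕ) : ZMod r) = ((1 + t * q p t : ℕ) : ZMod r) := by rw [d2_q_mul]
    push_cast at hq
    rw [← ZMod.natCast_eq_zero_iff, hq]
    constructor
    · intro h
      refine ⟨fun h1 => ht0 (by simpa using h1), by rw [h, mul_zero, add_zero]⟩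
    · rintro ⟨-, h⟩
      have h2 : (t : ZMod r) * (q p t : ZMod r) = 0 := by simpa using h
      exact (mul_eq_zero.1 h2).resolve_left ht0

theorem d2_card {p r : ℕ} (hp : p.Prime) (hr : r.Prime) (hpr : p < r) :
    #{t ∈ range r | r ∣ q p t} = if r % p = 1 then p - 1 else 0 := by
  classical
  have : Fact r.Prime := ⟨hr⟩
  have : Fact p.Prime := ⟨hp⟩
  split_ifs with h1
  · have hdvd : p ∣ r - 1 := by
      refine (Nat.modEq_iff_dvd' hr.one_lt.le).1 ?_
      show 1 % p = r % p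
      rw [h1, Nat.mod_eq_of_lt hp.one_lt]
    have hcard : p ∣ Fintype.card (ZMod r)ˣ := by
      rw [ZMod.card_units]; exact hdvd
    obtain ⟨u, hu⟩ := exists_prime_orderOf_dvd_card p hcard
    have hprim : IsPrimitiveRoot (u : ZMod r) p := by
      have h0 := IsPrimitiveRoot.orderOf (u : ZMod r)
      rwa [orderOf_units, hu] at h0
    have hc := hprim.card_nthRootsFinset
    have h2 : #{t ∈ range r | r ∣ q p t} =
        #((Polynomial.nthRootsFinset p (1 : ZMod r)).erase 1) := by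
      refine Finset.card_bij (fun t _ => (t : ZMod r) + 1) ?_ ?_ ?_
      · intro t ht
        rw [Finset.mem_filter, Finset.mem_range] at ht
        have h3 := (d2_dvd_iff hp hr hpr ht.1).1 ht.2
        rw [Finset.mem_erase, Polynomial.mem_nthRootsFinset hp.pos]
        exact h3
      · intro t ht t' ht' htt
        rw [Finset.mem_filter, Finset.mem_range] at ht ht'
        have h5 : (t : ZMod r) = (t' : ZMod r) := add_right_cancel htt
        have h6 := (ZMod.natCast_eq_natCast_iff' _ _ _).1 h5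
        rwa [Nat.mod_eq_of_lt ht.1, Nat.mod_eq_of_lt ht'.1] at h6
      · intro x hx
        rw [Finset.mem_erase, Polynomial.mem_nthRootsFinset hp.pos] at hx
        refine ⟨(x - 1).val, ?_, ?_⟩
        · rw [Finset.mem_filter, Finset.mem_range]
          refine ⟨ZMod.val_lt _, (d2_dvd_iff hp hr hpr (ZMod.val_lt _)).2 ?_⟩
          rw [ZMod.natCast_zmod_val, sub_add_cancel]
          exact hx
        · rw [ZMod.natCast_zmod_val, sub_add_cancel]
    rw [h2, Finset.card_erase_of_mem, hc]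
    rw [Polynomial.mem_nthRootsFinset hp.pos, one_pow]
  · rw [Finset.card_eq_zero, Finset.filter_eq_empty_iff]
    intro t ht h2
    rw [Finset.mem_range] at ht
    obtain ⟨h3, h4⟩ := (d2_dvd_iff hp hr hpr ht).1 h2
    have hx0 : (t : ZMod r) + 1 ≠ 0 := by
      intro h5
      rw [h5, zero_pow hp.ne_zero] at h4
      exact zero_ne_one h4
    have h5 : orderOf ((t : ZMod r) + 1) ∣ p := orderOf_dvd_of_pow_eq_one h4
    have h6 : orderOf ((t : ZMod r) + 1) ∣ r - 1 :=
      orderOf_dvd_of_pow_eq_one (ZMod.pow_card_sub_one_eq_one hx0)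
    rcases (Nat.dvd_prime hp).1 h5 with h7 | h7
    · exact h3 (orderOf_eq_one_iff.1 h7)
    · rw [h7] at h6
      have h8 : 1 ≡ r [MOD p] := (Nat.modEq_iff_dvd' hr.one_lt.le).2 h6
      have h9 : 1 % p = r % p := h8
      rw [Nat.mod_eq_of_lt hp.one_lt] at h9
      exact h1 h9.symm

/-! ### Probabilities -/

theorem d2_prob {Ω : Type} [MeasurableSpace Ω] {μ : Measure Ω} [IsProbabilityMeasure μ]
    {T : ℕ × ℕ → Ω → ℕ} (h : GR.Res μ T) (P : ℕ → Prop) [DecidablePred P] (c : ℕ) {r : ℕ}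
    (hr : r.Prime) :
    μ.real {ω | P (T (c, r) ω)} = (#{t ∈ range r | P t} : ℝ) / r := by
  have hr0 : (r : ℝ) ≠ 0 := by exact_mod_cast hr.pos.ne'
  have hall : μ.real {ω | T (c, r) ω ∈ range r} = 1 := by
    rw [Pool.Agent.L5helper58.GRRoots.prob_mem h c hr (range r) (fun t ht => by simpa using ht),
      card_range, div_self hr0]
  have hms : MeasurableSet {ω | T (c, r) ω ∈ range r} :=
    h.meas (c, r) (MeasurableSet.of_discrete (s := {t | t ∈ range r}))
  have hae : ∀ᵐ ω ∂μ, T (c, r) ω ∈ range r := by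
    refine (mem_ae_iff_prob_eq_one hms).mpr ?_
    rw [measureReal_def] at hall
    exact (ENNReal.toReal_eq_one_iff _).mp hall
  have h2 : μ.real {ω | P (T (c, r) ω)} = μ.real {ω | T (c, r) ω ∈ (range r).filter P} := by
    refine measureReal_congr ?_
    filter_upwards [hae] with ω hω
    refine propext ?_
    show P (T (c, r) ω) ↔ T (c, r) ω ∈ (range r).filter P
    rw [Finset.mem_filter]
    exact ⟨fun hh => ⟨hω, hh⟩, fun hh => hh.2⟩
  rw [h2, Pool.Agent.L5helper58.GRRoots.prob_mem h c hr _ (fun t ht => by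
    rw [Finset.mem_filter] at ht; simpa using ht.1)]

theorem d2_none {Ω : Type} [MeasurableSpace Ω] {μ : Measure Ω} [IsProbabilityMeasure μ]
    {T : ℕ × ℕ → Ω → ℕ} (h : GR.Res μ T) (P : ℕ → ℕ → Prop) [∀ r, DecidablePred (P r)] (c : ℕ)
    (R : Finset ℕ) (hR : ∀ r ∈ R, r.Prime) :
    μ.real {ω | ∀ r ∈ R, ¬ P r (T (c, r) ω)} =
      ∏ r ∈ R, (1 - (#{t ∈ range r | P r t} : ℝ) / r) := by
  classical
  have hinj : Set.InjOn (fun r : ℕ => (c, r)) (R : Set ℕ) := by
    intro a _ b _ hab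
    exact (Prod.mk.inj hab).2
  have h1 := Pool.Agent.L5helper58.GRRoots.indep_forall' (μ := μ) h.indep
    (R.image (fun r => (c, r))) (fun i t => ¬ P i.2 t)
  rw [Finset.prod_image hinj] at h1
  have h2 : {ω | ∀ r ∈ R, ¬ P r (T (c, r) ω)}
      = {ω | ∀ i ∈ R.image (fun r => (c, r)), ¬ P i.2 (T i ω)} := by
    ext ω; simp
  rw [h2, h1]
  refine Finset.prod_congr rfl (fun r hr => ?_)
  have h3 := d2_prob h (P r) c (hR r hr)
  have h4 : MeasurableSet {ω | P r (T (c, r) ω)} :=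
    h.meas (c, r) (MeasurableSet.of_discrete (s := {t | P r t}))
  have h5 := probReal_compl_eq_one_sub (μ := μ) h4
  rw [h3] at h5
  exact h5

/-- D2: the exact probability. -/
theorem prob_noq {p : ℕ} (hp : p.Prime) (h3 : 3 ≤ p) {Ω : Type} [MeasurableSpace Ω] {μ : Measure Ω}
    [IsProbabilityMeasure μ] {T : ℕ × ℕ × ℕ → Ω → ℕ} (h : Res μ T) (n : ℕ) {a : ℕ} (ha : p ≤ a) :
    μ.real {ω | ∀ r, r.Prime → a < r → r ^ 2 ≤ q p n → ¬ r ∣ q p (res T ω n r 0)}
      = ∏ r ∈ (Ioc a (Nat.sqrt (q p n))).filter (fun r => r.Prime ∧ r % p = 1),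
          (1 - ((p : ℝ) - 1) / r) := by
  have _ := h3
  have hset : {ω | ∀ r, r.Prime → a < r → r ^ 2 ≤ q p n → ¬ r ∣ q p (res T ω n r 0)} =
      {ω | ∀ r ∈ (Ioc a (Nat.sqrt (q p n))).filter Nat.Prime,
        ¬ r ∣ q p ((fun i : ℕ × ℕ => T (i.1, i.2, 0)) (n, r) ω)} := by
    ext ω
    simp only [Set.mem_ofPred_eq, Finset.mem_filter, Finset.mem_Ioc, Nat.le_sqrt', res]
    exact ⟨fun hh r hr => hh r hr.2 hr.1.1 hr.1.2, fun hh r h1 h2 h3 => hh r ⟨⟨h2, h3⟩, h1⟩⟩
  rw [hset, d2_none h.zero (fun r t => r ∣ q p t) n _ (fun r hr => (Finset.mem_filter.1 hr).2),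
    ← Finset.filter_filter, Finset.prod_filter (fun r => r % p = 1)]
  refine Finset.prod_congr rfl fun r hr => ?_
  rw [Finset.mem_filter, Finset.mem_Ioc] at hr
  rw [d2_card hp hr.2 (by omega)]
  split_ifs with h4
  · rw [Nat.cast_sub hp.one_lt.le, Nat.cast_one]
  · simp

end Pool.Agent.L5helper32.GP
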