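import Pool.Agent.L5helper15.GRParam

/-!
# The parameters of a winning descent (written by helper20 for helper32)
-/

set_option autoImplicit false

open Finset MeasureTheory ProbabilityTheory Filter

namespace Pool.Agent.L5helper32.GR

namespace Win

open Param

lemma sg_le_one' {p : ℕ} (hp : p.Prime) (a b : ℕ) : sg p a b ≤ 1 := by
  unfold sg
  apply prod_le_one
  · intro r hr
    have hr' := (mem_pr.1 hr).2
    have h1 : (w p r : ℝ) / r ≤ 1 := by
      apply div_le_one_of_le₀ _ (Nat.cast_nonneg _)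
      exact_mod_cast (w_lt' hp hr').le
    linarith
  · intro r _
    have : 0 ≤ (w p r : ℝ) / r := by positivity
    linarith

/-- the probability that there is no root between `a` and `b` is bounded below in terms of
`log b / log a` -/
lemma sg_below {p : ℕ} (hp : p.Prime) : ∃ D : ℝ, 0 < D ∧ ∀ a b : ℕ, 2 ≤ a → a ≤ b →
    Real.exp (-(p * (Real.log (Real.log b / Real.log a) + D))) ≤ sg p a b := by
  obtain ⟨C, hC, hM⟩ := Pool.Agent.Helper923.HMertens.mertens_ratio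
  have hp1 : (1 : ℝ) ≤ p := by exact_mod_cast hp.one_lt.le
  have hl2 : 0 < Real.log 2 := Real.log_pos (by norm_num)
  refine ⟨C / Real.log 2 + 16 * (p : ℝ) ^ 2, by positivity, fun a b ha hab => ?_⟩
  have ha2 : (2 : ℝ) ≤ a := by exact_mod_cast ha
  have hla : Real.log 2 ≤ Real.log a := Real.log_le_log (by norm_num) ha2
  have h1 : ∑ r ∈ pr a b, (1 : ℝ) / r ≤ Real.log (Real.log b / Real.log a) + C / Real.log a := by
    have := (abs_le.1 (hM a b ha hab)).2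
    unfold pr
    linarith
  have h1' : C / Real.log a ≤ C / Real.log 2 := div_le_div_of_nonneg_left hC hl2 hla
  have h2 : ∑ r ∈ pr a b, ((r : ℝ) ^ 2)⁻¹ ≤ 2 := by
    refine le_trans (sum_le_sum_of_subset_of_nonneg ?_ fun _ _ _ => by positivity) (sum_inv_sq b)
    intro r hr
    rw [mem_pr] at hr ⊢
    exact ⟨⟨hr.2.pos, hr.1.2⟩, hr.2⟩
  have h4 : ∏ r ∈ pr a b, Real.exp (-((p : ℝ) * (1 / r) + 8 * (p : ℝ) ^ 3 * ((r : ℝ) ^ 2)⁻¹))
      ≤ sg p a b := by
    unfold sg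
    exact prod_le_prod (fun _ _ => (Real.exp_pos _).le) fun r hr => factor_lower hp (mem_pr.1 hr).2
  refine le_trans ?_ h4
  rw [← Real.exp_sum, sum_neg_distrib, sum_add_distrib, ← mul_sum, ← mul_sum]
  apply Real.exp_le_exp.2
  have h5 : (p : ℝ) * ∑ r ∈ pr a b, (1 : ℝ) / r
      ≤ p * (Real.log (Real.log b / Real.log a) + C / Real.log 2) :=
    mul_le_mul_of_nonneg_left (by linarith) (by linarith)
  have h6 : 8 * (p : ℝ) ^ 3 * ∑ r ∈ pr a b, ((r : ℝ) ^ 2)⁻¹ ≤ 8 * (p : ℝ) ^ 3 * 2 :=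
    mul_le_mul_of_nonneg_left h2 (by positivity)
  have h7 : (p : ℝ) * (Real.log (Real.log b / Real.log a) + (C / Real.log 2 + 16 * (p : ℝ) ^ 2))
      = p * (Real.log (Real.log b / Real.log a) + C / Real.log 2) + 8 * (p : ℝ) ^ 3 * 2 := by ring
  rw [h7]
  linarith

lemma lev_le {p z : ℕ} (hp : 1 ≤ p) (hz : 1 ≤ z) : lev p z ≤ (4 * z) ^ p := by
  unfold lev
  have h1 : z ≤ (z + 1) ^ p := (Nat.le_succ z).trans (Nat.le_self_pow (by omega) _)
  calc (z + 1) ^ p + z ≤ 2 * (z + 1) ^ p := by omega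
    _ ≤ 2 ^ p * (z + 1) ^ p := Nat.mul_le_mul_right _ (Nat.le_self_pow (by omega) 2)
    _ = (2 * (z + 1)) ^ p := by rw [mul_pow]
    _ ≤ (4 * z) ^ p := Nat.pow_le_pow_left (by omega) p

lemma lev_le' {p z : ℕ} (hp : 1 ≤ p) (hz : 4 ≤ z) : lev p z + 2 ≤ z ^ (2 * (p + 1)) := by
  have h1 := lev_le hp (show 1 ≤ z by omega)
  have h2 : 1 ≤ (4 * z) ^ p := Nat.one_le_pow _ _ (by omega)
  calc lev p z + 2 ≤ (4 * z) ^ p + 2 := by omega
    _ ≤ (4 * z) ^ p * (4 * z) := by nlinarith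
    _ = (4 * z) ^ (p + 1) := (pow_succ _ _).symm
    _ ≤ (z * z) ^ (p + 1) := Nat.pow_le_pow_left (Nat.mul_le_mul_right _ hz) _
    _ = z ^ (2 * (p + 1)) := by rw [← pow_two, ← pow_mul]

lemma lev_root {p z : ℕ} (hp : 1 ≤ p) (hz : 1 ≤ z) :
    ((lev p z : ℕ) : ℝ) ^ (1 / (8 * p) : ℝ) ≤ 4 * (z : ℝ) ^ (1 / 8 : ℝ) := by
  have hz0 : (0 : ℝ) ≤ z := Nat.cast_nonneg _
  have hp0 : (0 : ℝ) < p := by exact_mod_cast hp
  have h1 : ((lev p z : ℕ) : ℝ) ≤ (4 * (z : ℝ)) ^ p := by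
    have := lev_le hp hz
    exact_mod_cast this
  calc ((lev p z : ℕ) : ℝ) ^ (1 / (8 * p) : ℝ) ≤ ((4 * (z : ℝ)) ^ p) ^ (1 / (8 * p) : ℝ) :=
        Real.rpow_le_rpow (Nat.cast_nonneg _) h1 (by positivity)
    _ = (4 * (z : ℝ)) ^ (1 / 8 : ℝ) := by
        rw [← Real.rpow_natCast, ← Real.rpow_mul (by positivity)]
        congr 1
        field_simp
    _ = (4 : ℝ) ^ (1 / 8 : ℝ) * (z : ℝ) ^ (1 / 8 : ℝ) := Real.mul_rpow (by norm_num) hz0
    _ ≤ 4 * (z : ℝ) ^ (1 / 8 : ℝ) := by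
        apply mul_le_mul_of_nonneg_right _ (by positivity)
        calc (4 : ℝ) ^ (1 / 8 : ℝ) ≤ (4 : ℝ) ^ (1 : ℝ) :=
              Real.rpow_le_rpow_of_exponent_le (by norm_num) (by norm_num)
          _ = 4 := Real.rpow_one 4

/-- the eventual inequalities -/
lemma win_ev (p : ℕ) (K L : ℝ) : ∃ z₁ : ℕ, ∀ z : ℕ, z₁ ≤ z →
    L ≤ Real.log z ∧ K * (Real.log z) ^ (2 * (p + 1)) ≤ (z : ℝ) ^ (3 / 8 : ℝ) := by
  have hlog : Tendsto (fun Y : ℕ => Real.log (Y : ℝ)) atTop atTop :=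
    Real.tendsto_log_atTop.comp tendsto_natCast_atTop_atTop
  have h1 : ∀ᶠ Y : ℕ in atTop, max L 1 ≤ Real.log (Y : ℝ) := hlog.eventually_ge_atTop _
  have h3 : ∀ᶠ Y : ℕ in atTop, (|K| + 1) * (Real.log (Y : ℝ)) ^ (2 * (p + 1)) ≤
      (Y : ℝ) ^ (3 / 8 : ℝ) := by
    have h := (isLittleO_log_rpow_rpow_atTop (s := 3 / 8) ((2 * (p + 1) : ℕ) : ℝ)
      (by norm_num)).bound (c := 1 / (|K| + 1)) (by positivity)
    have h' := tendsto_natCast_atTop_atTop (R := ℝ) |>.eventually h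
    filter_upwards [h', h1] with Y hY hY1
    have e1 : (0 : ℝ) ≤ Real.log (Y : ℝ) := by linarith [le_max_right L 1]
    rw [Real.norm_of_nonneg (Real.rpow_nonneg e1 _),
      Real.norm_of_nonneg (Real.rpow_nonneg (Nat.cast_nonneg _) _), Real.rpow_natCast,
      one_div_mul_eq_div, le_div_iff₀ (by positivity)] at hY
    linarith
  obtain ⟨Y₀, hY₀⟩ := eventually_atTop.1 (h1.and h3)
  refine ⟨Y₀, fun z hz => ?_⟩
  obtain ⟨h4, h5⟩ := hY₀ z hz
  refine ⟨(le_max_left _ _).trans h4, le_trans ?_ h5⟩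
  apply mul_le_mul_of_nonneg_right
  · linarith [le_abs_self K]
  · have : (0 : ℝ) ≤ Real.log (z : ℝ) := by linarith [le_max_right L 1]
    positivity

end Win

open Win Param

theorem params' {p : ℕ} (hp : p.Prime) {C₁ : ℝ} (hC₁ : 0 < C₁) : ∃ c : ℝ, 0 < c ∧ ∃ z₁ : ℕ,
    ∀ z ≥ z₁, ∃ j y G : ℕ, 1 ≤ G ∧ 1 ≤ y ∧ j * (y + G) ≤ z ∧
      (1 - sg p y (lev p z + 2)) + j * (C₁ * y * ((lev p z : ℕ) : ℝ) ^ (1 / (8 * p) : ℝ) / G)
        + (1 - sg p 0 y) ^ j ≤ 1 - c := by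
  obtain ⟨D, hD, hbelow⟩ := sg_below hp
  obtain ⟨c₀, hc₀, hlow⟩ := sg_lower hp
  have hp1 : (1 : ℝ) ≤ p := by exact_mod_cast hp.one_lt.le
  set c₁ : ℝ := Real.exp (-(p * (Real.log (8 * (p + 1)) + D))) with hc₁
  have hc₁pos : 0 < c₁ := Real.exp_pos _
  obtain ⟨z₁, hz₁⟩ := win_ev p (512 * C₁ / c₁ + 16) (4 + 4 / (c₀ * c₁))
  refine ⟨c₁ / 2, by positivity, max z₁ 4, fun z hz => ?_⟩
  obtain ⟨hL, hK⟩ := hz₁ z ((le_max_left _ _).trans hz)
  have hz4 : 4 ≤ z := (le_max_right _ _).trans hz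
  have hzr : (4 : ℝ) ≤ z := by exact_mod_cast hz4
  have hz0 : (0 : ℝ) < z := by linarith
  set l : ℝ := Real.log z with hl
  have hcc : 0 < 4 / (c₀ * c₁) := by positivity
  have hl4 : 4 ≤ l := by linarith
  have hl0 : 0 < l := by linarith
  -- `j`
  have hlp1 : 1 ≤ l ^ (p + 1) := one_le_pow₀ (by linarith)
  set j : ℕ := ⌈l ^ (p + 1)⌉₊ with hj
  have hj1 : l ^ (p + 1) ≤ j := Nat.le_ceil _
  have hj2 : (j : ℝ) ≤ 2 * l ^ (p + 1) := by
    have := Nat.ceil_lt_add_one (show 0 ≤ l ^ (p + 1) by positivity)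
    linarith
  have hj0 : (0 : ℝ) < j := by linarith
  have hjn : 0 < j := by exact_mod_cast hj0
  have hpw : l ^ (2 * (p + 1)) = l ^ (p + 1) * l ^ (p + 1) := by rw [two_mul, pow_add]
  have hlp2 : l ^ (p + 1) ≤ l ^ (2 * (p + 1)) := by
    rw [hpw]
    exact le_mul_of_one_le_right (by positivity) hlp1
  have hj3 : (j : ℝ) ^ 2 ≤ 4 * l ^ (2 * (p + 1)) := by
    rw [hpw]
    nlinarith
  -- powers of `z`
  have hz38 : 16 * l ^ (2 * (p + 1)) ≤ (z : ℝ) ^ (3 / 8 : ℝ) := by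
    have h1 : 0 ≤ 512 * C₁ / c₁ * l ^ (2 * (p + 1)) := by positivity
    nlinarith
  have hz12 : (z : ℝ) ^ (3 / 8 : ℝ) ≤ Real.sqrt z := by
    rw [Real.sqrt_eq_rpow]
    exact Real.rpow_le_rpow_of_exponent_le (by linarith) (by norm_num)
  have hjsq : 8 * (j : ℝ) ≤ Real.sqrt z := by linarith
  have hsqz : Real.sqrt z * Real.sqrt z = z := Real.mul_self_sqrt hz0.le
  have hsq2 : (2 : ℝ) ≤ Real.sqrt z := by
    apply Real.le_sqrt_of_sq_le
    linarith
  -- `y`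
  set y : ℕ := Nat.sqrt z with hy
  have hy1 : (y : ℝ) ≤ Real.sqrt z := by
    apply Real.le_sqrt_of_sq_le
    have := Nat.sqrt_le' z
    exact_mod_cast this
  have hy2 : 2 ≤ y := by
    rw [hy]
    exact Nat.le_sqrt.2 (by omega)
  have hy2r : (2 : ℝ) ≤ y := by exact_mod_cast hy2
  have hy3 : Real.sqrt z / 2 ≤ y := by
    have h1 : (z : ℝ) < (y + 1) ^ 2 := by
      have := Nat.lt_succ_sqrt' z
      exact_mod_cast this
    have h2 : Real.sqrt z < y + 1 := (Real.sqrt_lt' (by linarith)).2 h1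
    linarith
  -- `G`
  set G : ℕ := z / (4 * j) with hG
  have hG1 : (G : ℝ) ≤ z / (4 * j) := by
    have h := Nat.cast_div_le (α := ℝ) (m := z) (n := 4 * j)
    push_cast at h
    exact h
  have hz8j : 8 * (j : ℝ) ≤ z := by nlinarith
  have hG2 : (z : ℝ) / (8 * j) ≤ G := by
    have h1 : (z : ℝ) / ((4 * j : ℕ) : ℝ) < ((z / (4 * j) : ℕ) : ℝ) + 1 := by
      rw [div_lt_iff₀ (by positivity)]
      have h2 := Nat.lt_div_mul_add (a := z) (b := 4 * j) (by positivity)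
      have h3 : (z : ℝ) < (z / (4 * j) : ℕ) * (4 * j : ℕ) + (4 * j : ℕ) := by exact_mod_cast h2
      linarith
    push_cast at h1
    have h4 : 1 ≤ (z : ℝ) / (8 * j) := by
      rw [le_div_iff₀ (by positivity)]
      linarith
    have h5 : (z : ℝ) / (4 * j) = 2 * (z / (8 * j)) := by field_simp; norm_num
    rw [h5] at h1
    have h6 : ((z / (4 * j) : ℕ) : ℝ) = (G : ℝ) := rfl
    linarith
  have hG0 : (0 : ℝ) < G := lt_of_lt_of_le (by positivity) hG2
  refine ⟨j, y, G, by exact_mod_cast hG0, by omega, ?_, ?_⟩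
  · have h1 : (j : ℝ) * (y + G) ≤ z := by
      have h2 : (j : ℝ) * y ≤ z / 2 := by nlinarith
      have h3 : (j : ℝ) * G ≤ z / 4 := by
        calc (j : ℝ) * G ≤ j * (z / (4 * j)) := mul_le_mul_of_nonneg_left hG1 hj0.le
          _ = z / 4 := by field_simp
      linarith
    exact_mod_cast h1
  · have hy0 : (0 : ℝ) < y := by linarith
    have hlog2 : Real.log 2 < 1 := by
      have := Real.log_two_lt_d9
      linarith
    have hlogy : l / 4 ≤ Real.log y := by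
      have h1 := Real.log_le_log (by positivity) hy3
      rw [Real.log_div (by positivity) (by norm_num), Real.log_sqrt hz0.le] at h1
      linarith
    have hlogy0 : 0 < Real.log y := by linarith
    have hyz : (y : ℝ) ≤ z := by nlinarith
    have hlogy2 : Real.log y ≤ l := Real.log_le_log hy0 hyz
    -- the first term
    have t1 : c₁ ≤ sg p y (lev p z + 2) := by
      have hyM : y ≤ lev p z + 2 := by
        have h1 : y ≤ z := Nat.sqrt_le_self z
        unfold lev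
        omega
      refine le_trans ?_ (hbelow y (lev p z + 2) hy2 hyM)
      rw [hc₁]
      apply Real.exp_le_exp.2
      apply neg_le_neg
      apply mul_le_mul_of_nonneg_left _ (by linarith)
      have hM2 : (2 : ℝ) ≤ ((lev p z + 2 : ℕ) : ℝ) := by
        exact_mod_cast (show 2 ≤ lev p z + 2 by omega)
      have hlM0 : 0 < Real.log ((lev p z + 2 : ℕ) : ℝ) := Real.log_pos (by linarith)
      have hlM : Real.log ((lev p z + 2 : ℕ) : ℝ) ≤ 2 * (p + 1) * l := by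
        have h1 : ((lev p z + 2 : ℕ) : ℝ) ≤ (z : ℝ) ^ (2 * (p + 1)) := by
          have := lev_le' hp.one_lt.le hz4
          exact_mod_cast this
        have h2 := Real.log_le_log (by linarith) h1
        rw [Real.log_pow] at h2
        push_cast at h2
        push_cast
        linarith
      have hr : Real.log ((lev p z + 2 : ℕ) : ℝ) / Real.log y ≤ 8 * (p + 1) := by
        rw [div_le_iff₀ hlogy0]
        nlinarith
      have h3 := Real.log_le_log (by positivity) hr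
      linarith
    -- the second term
    have t2 : (j : ℝ) * (C₁ * y * ((lev p z : ℕ) : ℝ) ^ (1 / (8 * p) : ℝ) / G) ≤ c₁ / 4 := by
      have h1 := lev_root hp.one_lt.le (show 1 ≤ z by omega)
      have h2 : C₁ * y * ((lev p z : ℕ) : ℝ) ^ (1 / (8 * p) : ℝ)
          ≤ C₁ * Real.sqrt z * (4 * (z : ℝ) ^ (1 / 8 : ℝ)) := by gcongr
      have h3 : C₁ * y * ((lev p z : ℕ) : ℝ) ^ (1 / (8 * p) : ℝ) / G
          ≤ C₁ * Real.sqrt z * (4 * (z : ℝ) ^ (1 / 8 : ℝ)) / (z / (8 * j)) :=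
        div_le_div₀ (by positivity) h2 (by positivity) hG2
      have h4 : (j : ℝ) * (C₁ * y * ((lev p z : ℕ) : ℝ) ^ (1 / (8 * p) : ℝ) / G)
          ≤ j * (C₁ * Real.sqrt z * (4 * (z : ℝ) ^ (1 / 8 : ℝ)) / (z / (8 * j))) :=
        mul_le_mul_of_nonneg_left h3 hj0.le
      refine h4.trans ?_
      have h5 : Real.sqrt z * (z : ℝ) ^ (1 / 8 : ℝ) * (z : ℝ) ^ (3 / 8 : ℝ) = z := by
        rw [Real.sqrt_eq_rpow, ← Real.rpow_add hz0, ← Real.rpow_add hz0]
        norm_num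
      have h38 : (0 : ℝ) < (z : ℝ) ^ (3 / 8 : ℝ) := by positivity
      have h6 : (j : ℝ) * (C₁ * Real.sqrt z * (4 * (z : ℝ) ^ (1 / 8 : ℝ)) / (z / (8 * j)))
          = 32 * C₁ * (j : ℝ) ^ 2 / (z : ℝ) ^ (3 / 8 : ℝ) := by
        have h7 : C₁ * Real.sqrt z * (4 * (z : ℝ) ^ (1 / 8 : ℝ))
            = 4 * C₁ * z / (z : ℝ) ^ (3 / 8 : ℝ) := by
          rw [eq_div_iff h38.ne']
          calc C₁ * Real.sqrt z * (4 * (z : ℝ) ^ (1 / 8 : ℝ)) * (z : ℝ) ^ (3 / 8 : ℝ)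
              = 4 * C₁ * (Real.sqrt z * (z : ℝ) ^ (1 / 8 : ℝ) * (z : ℝ) ^ (3 / 8 : ℝ)) := by ring
            _ = 4 * C₁ * z := by rw [h5]
        rw [h7]
        field_simp
        ring
      rw [h6, div_le_iff₀ h38]
      have h8 : 512 * C₁ / c₁ * l ^ (2 * (p + 1)) ≤ (z : ℝ) ^ (3 / 8 : ℝ) := by
        have : 0 ≤ l ^ (2 * (p + 1)) := by positivity
        nlinarith
      have h9 : 32 * C₁ * (j : ℝ) ^ 2 ≤ 128 * C₁ * l ^ (2 * (p + 1)) := by nlinarith
      have h10 : 128 * C₁ * l ^ (2 * (p + 1)) = c₁ / 4 * (512 * C₁ / c₁ * l ^ (2 * (p + 1))) := by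
        field_simp
        ring
      rw [h10] at h9
      exact h9.trans (mul_le_mul_of_nonneg_left h8 (by positivity))
    -- the third term
    have t3 : (1 - sg p 0 y) ^ j ≤ c₁ / 4 := by
      have hs1 := sg_le_one' hp 0 y
      have h1 : (1 - sg p 0 y) ^ j ≤ Real.exp (-(sg p 0 y * j)) := by
        have h2 : 1 - sg p 0 y ≤ Real.exp (-sg p 0 y) := Real.one_sub_le_exp_neg _
        have h3 : (1 - sg p 0 y) ^ j ≤ (Real.exp (-sg p 0 y)) ^ j :=
          pow_le_pow_left₀ (by linarith) h2 j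
        rw [← Real.exp_nat_mul] at h3
        rwa [show (j : ℝ) * -sg p 0 y = -(sg p 0 y * j) by ring] at h3
      have h4 : c₀ * l ≤ sg p 0 y * j := by
        have h5 : c₀ / l ^ p ≤ sg p 0 y := by
          refine le_trans ?_ (hlow y hy2)
          exact div_le_div_of_nonneg_left hc₀.le (by positivity)
            (pow_le_pow_left₀ hlogy0.le hlogy2 p)
        calc c₀ * l = c₀ / l ^ p * l ^ (p + 1) := by
              rw [pow_succ]
              field_simp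
          _ ≤ sg p 0 y * j := mul_le_mul h5 hj1 (by positivity) (le_trans (by positivity) h5)
      have h6 : Real.exp (-(sg p 0 y * j)) ≤ 1 / (c₀ * l) := by
        have h7 : c₀ * l ≤ Real.exp (c₀ * l) := by
          have := Real.add_one_le_exp (c₀ * l)
          linarith
        calc Real.exp (-(sg p 0 y * j)) ≤ Real.exp (-(c₀ * l)) := Real.exp_le_exp.2 (by linarith)
          _ = 1 / Real.exp (c₀ * l) := by rw [Real.exp_neg, one_div]
          _ ≤ 1 / (c₀ * l) := one_div_le_one_div_of_le (by positivity) h7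
      refine (h1.trans h6).trans ?_
      have h8 : 4 / (c₀ * c₁) ≤ l := by linarith
      rw [div_le_iff₀ (by positivity)] at h8 ⊢
      nlinarith
    linarith

end Pool.Agent.L5helper32.GR
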